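import Pool.Agent.Helper28.Conv

set_option autoImplicit false

/-!
On every infinite-dimensional separable Hilbert space `H` there is a spectral triple whose
bicommutant contains no nonzero finite rank operator and for which the functional
`Φ_ω(S) = Tr_ω(S ⟨D⟩^{-n})` is not normal on the bicommutant, for every Dixmier trace `Tr_ω`.

`H` has an orthonormal basis `e_{i,k}`, `i ∈ ℕ`, `k ∈ ℤ`; the algebra is generated by the block
shifts `V_i e_{i,k} = e_{i,k+1}`, `V_i e_{j,k} = 0` for `j ≠ i`; `D` is diagonal with eigenvalues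
`√i + 2(i+1)k`.  The summability dimension is `2`, `Tr_ω(P_i ⟨D⟩^{-2}) = 0` for each block
projection `P_i`, while `Tr_ω(⟨D⟩^{-2}) ≥ 1`.
-/

namespace Pool.Agent.Results.MP_9105af_an.NotNormal

open Pool.Agent.Helper28 Pool.Agent.Helper28.NCG Module

theorem result (H : Type) [NormedAddCommGroup H] [InnerProductSpace ℂ H] [CompleteSpace H]
    [TopologicalSpace.SeparableSpace H] (hinf : ¬ FiniteDimensional ℂ H) :
    ∃ (A : StarSubalgebra ℂ (H →L[ℂ] H)) (D : H →ₗ.[ℂ] H) (R : H →L[ℂ] H),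
      IsSpectralTriple A D R ∧ IsSummabilityDimension R 2 ∧ japPow R 2 ∈ MOneInf H ∧
      (∀ a ∈ A, ∀ b ∈ A, a * b = b * a) ∧
      (∀ T ∈ bicommutant A, FiniteDimensional ℂ (LinearMap.range (T : H →ₗ[ℂ] H)) → T = 0) ∧
      (∃ ω : (ℕ → ℝ) → ℝ, IsDilationInvariantLimit ω) ∧
      ∀ ω : (ℕ → ℝ) → ℝ, IsDilationInvariantLimit ω →
        (∃ τ : (H →L[ℂ] H) → ℂ, IsDixmierTrace ω τ) ∧
        ∀ τ : (H →L[ℂ] H) → ℂ, IsDixmierTrace ω τ →
          ¬ IsNormalOn (bicommutant A) (fun S => τ (S * japPow R 2)) := by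
  obtain ⟨b⟩ := exists_basis H hinf
  refine ⟨Alg b, Dop b lam, Rop b, spectral b, sumdim b, ?_, Alg_comm b,
    no_finite_rank b, ⟨omega1, omega1_spec⟩, ?_⟩
  · rw [japPow_two]
    exact Rop_M b
  · intro ω hω
    exact ⟨exists_dix hω, fun τ hτ => not_normal (toL_spec hω) (toL_dix hω hτ) b⟩

end Pool.Agent.Results.MP_9105af_an.NotNormal
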